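import Pool.Agent.Helper66.PLM.Stmts
import Pool.Agent.Helper66.PLR.Cont

open Ordinal Pool.Agent.Helper66.PLR Pool.Agent.Helper66.PLM

namespace Pool.Agent.Helper59.PLM

theorem st_INN : ST_INN := by
  intro M hM x f f' hx hf hf' hxM hfM hf'M
  set W : ZFSet.{0} := (ω₁ : Ordinal.{0}).toZFSet with hW
  have hWM : W ∈ M := hM.ord _
  have hfin : ZFSet.sep (fun g => ∃ a ∈ W, ∃ b ∈ W,
      ZFSet.pair g a ∈ graph f ∧ ZFSet.pair a b ∈ graph x ∧ ZFSet.pair g b ∈ graph f') W ∈ M := by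
    have hdd : DD M (fun v => ∃ a ∈ v 1, ∃ b ∈ v 1,
        ZFSet.pair (v 0) a ∈ v 3 ∧ ZFSet.pair a b ∈ v 2 ∧ ZFSet.pair (v 0) b ∈ v 4) := by
      refine DD.bex hM 11 1 (by decide) (P := fun v a => ∃ b ∈ v 1,
        ZFSet.pair (v 0) a ∈ v 3 ∧ ZFSet.pair a b ∈ v 2 ∧ ZFSet.pair (v 0) b ∈ v 4) ?_ ?_
      · refine DD.bex hM 12 1 (by decide) (P := fun v b =>
          ZFSet.pair (v 0) (v 11) ∈ v 3 ∧ ZFSet.pair (v 11) b ∈ v 2 ∧
            ZFSet.pair (v 0) b ∈ v 4) ?_ ?_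
        · exact (DD.pairMem hM 0 11 3).and ((DD.pairMem hM 11 12 2).and (DD.pairMem hM 0 12 4))
        · intro v a b; simp
      · intro v a b; simp
    exact sep_mem hM hdd [W, graph x, graph f, graph f'] (by simp [hWM, hxM, hfM, hf'M]) hWM
      (fun b _ => Iff.rfl)
  have heq : subs (fun α => x (f α) = f' α) = ZFSet.sep (fun g => ∃ a ∈ W, ∃ b ∈ W,
      ZFSet.pair g a ∈ graph f ∧ ZFSet.pair a b ∈ graph x ∧ ZFSet.pair g b ∈ graph f') W := by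
    ext z
    rw [mem_subs, ZFSet.mem_sep]
    constructor
    · rintro ⟨γ, hγ, h, rfl⟩
      have hfγ : f γ < ω₁ := hf.1 γ hγ
      exact ⟨Ordinal.toZFSet_mem_toZFSet_iff.2 hγ, (f γ).toZFSet,
        Ordinal.toZFSet_mem_toZFSet_iff.2 hfγ, (f' γ).toZFSet,
        Ordinal.toZFSet_mem_toZFSet_iff.2 (hf'.1 γ hγ), (pair_mem_graph hf).2 ⟨hγ, rfl⟩,
        (pair_mem_graph hx).2 ⟨hfγ, h⟩, (pair_mem_graph hf').2 ⟨hγ, rfl⟩⟩
    · rintro ⟨hz, a, ha, b, hb, hga, hab, hgb⟩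
      obtain ⟨γ, hγ, rfl⟩ := Ordinal.mem_toZFSet_iff.1 hz
      obtain ⟨α, hα, rfl⟩ := Ordinal.mem_toZFSet_iff.1 ha
      obtain ⟨β, hβ, rfl⟩ := Ordinal.mem_toZFSet_iff.1 hb
      rw [pair_mem_graph hf] at hga
      rw [pair_mem_graph hx] at hab
      rw [pair_mem_graph hf'] at hgb
      refine ⟨γ, hγ, ?_, rfl⟩
      rw [hga.2, hab.2, hgb.2]
  rw [heq]
  exact hfin

end Pool.Agent.Helper59.PLM
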