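import Pool.Agent.Helper66.PLM.Stmts

open Ordinal Pool.Agent.Helper66.PLR Pool.Agent.Helper66.PLM

namespace Pool.Agent.Helper59.PLM

theorem st_SML : ST_SML := by
  intro T κ hT
  have hs : ∀ p : Cd T κ, ∀ β, p.s β < ω₁ := by
    intro p β
    obtain ⟨_, h2, h3⟩ := hT _ p.mem
    rcases lt_or_ge β p.len with h | h
    · exact h2 β h
    · rw [p.szero β h]
      exact Ordinal.omega_pos 1
  have hc : ∀ p : Cd T κ, ∀ β, p.c β < κ + 1 := by
    intro p β
    rcases lt_or_ge β p.len with h | h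
    · exact (p.val β h).trans (Order.lt_add_one_iff.2 le_rfl)
    · rw [p.zero β h]
      exact Order.lt_add_one_iff.2 zero_le
  have hl : ∀ p : Cd T κ, p.len < ω₁ := fun p => (hT _ p.mem).1
  let F : Cd T κ → Set.Iio (ω₁ : Ordinal.{0}) ×
      (Set.Iio (ω₁ : Ordinal.{0}) → Set.Iio (ω₁ : Ordinal.{0})) ×
      (Set.Iio (ω₁ : Ordinal.{0}) → Set.Iio (κ + 1)) :=
    fun p => (⟨p.len, hl p⟩, fun β => ⟨p.s β.1, hs p β.1⟩, fun β => ⟨p.c β.1, hc p β.1⟩)
  refine small_of_injective (f := F) ?_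
  intro p q hpq
  have h1 : p.len = q.len := congrArg (fun z => z.1.1) hpq
  have h2 : ∀ β : Set.Iio (ω₁ : Ordinal.{0}), p.s β.1 = q.s β.1 := fun β =>
    congrArg (fun z => (z.2.1 β).1) hpq
  have h3 : ∀ β : Set.Iio (ω₁ : Ordinal.{0}), p.c β.1 = q.c β.1 := fun β =>
    congrArg (fun z => (z.2.2 β).1) hpq
  refine Cd.ext h1 ?_ ?_
  · funext β
    rcases lt_or_ge β p.len with h | h
    · exact h2 ⟨β, h.trans (hl p)⟩
    · rw [p.szero β h, q.szero β (h1 ▸ h)]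
  · funext β
    rcases lt_or_ge β p.len with h | h
    · exact h3 ⟨β, h.trans (hl p)⟩
    · rw [p.zero β h, q.zero β (h1 ▸ h)]

end Pool.Agent.Helper59.PLM
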